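import Mathlib

/-!
# A CIS graph with `α ω < |V|`
-/

set_option autoImplicit false

open Finset

namespace Pool.Agent.Results.MP_703660_co.CISProductBound

variable {V : Type*}

/-- `Q` is an inclusion-maximal clique. -/
def IsMaximalClique (G : SimpleGraph V) (Q : Finset V) : Prop :=
  G.IsClique (Q : Set V) ∧ ∀ R : Finset V, G.IsClique (R : Set V) → Q ⊆ R → R = Q

/-- `S` is an inclusion-maximal stable set. -/
def IsMaximalStable (G : SimpleGraph V) (S : Finset V) : Prop :=
  G.IsIndepSet (S : Set V) ∧ ∀ R : Finset V, G.IsIndepSet (R : Set V) → S ⊆ R → R = S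

/-- `G` is a CIS graph: every maximal clique meets every maximal stable set. -/
def IsCIS (G : SimpleGraph V) : Prop :=
  ∀ Q S : Finset V, IsMaximalClique G Q → IsMaximalStable G S → ∃ v, v ∈ Q ∧ v ∈ S

/-- The vertex set of the example: five blocks `3 K₃` and five more vertices. -/
abbrev W : Type := (Fin 5 × Fin 3 × Fin 3) ⊕ Fin 5

/-- Adjacency of the 5-cycle. -/
def cadj (i j : Fin 5) : Prop := j = i + 1 ∨ i = j + 1

/-- Adjacency of the example. -/
def adj : W → W → Prop
  | Sum.inl (i, a, b), Sum.inl (j, c, d) => cadj i j ∨ (i = j ∧ a = c ∧ b ≠ d)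
  | Sum.inl (j, _, _), Sum.inr i => j = i ∨ j = i + 1
  | Sum.inr i, Sum.inl (j, _, _) => j = i ∨ j = i + 1
  | Sum.inr _, Sum.inr _ => False

instance : DecidableRel cadj := fun i j => by unfold cadj; infer_instance

theorem cadj_symm {i j : Fin 5} (h : cadj i j) : cadj j i := h.symm

theorem cadj_irrefl (i : Fin 5) : ¬ cadj i i := by
  revert i
  decide

/-- The example. -/
def ex : SimpleGraph W where
  Adj := adj
  symm := ⟨by
    rintro (⟨i, a, b⟩ | i) (⟨j, c, d⟩ | j) h
    · rcases h with h | ⟨rfl, rfl, h⟩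
      · exact Or.inl (cadj_symm h)
      · exact Or.inr ⟨rfl, rfl, h.symm⟩
    · exact h
    · exact h
    · exact h⟩
  loopless := ⟨by
    rintro (⟨i, a, b⟩ | i) h
    · rcases h with h | ⟨-, -, h⟩
      · exact cadj_irrefl i h
      · exact h rfl
    · exact h⟩

theorem adj_ll {i j : Fin 5} {a b c d : Fin 3} : ex.Adj (Sum.inl (i, a, b)) (Sum.inl (j, c, d)) ↔
    cadj i j ∨ (i = j ∧ a = c ∧ b ≠ d) := Iff.rfl

theorem adj_lr {i j : Fin 5} {a b : Fin 3} : ex.Adj (Sum.inl (j, a, b)) (Sum.inr i) ↔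
    (j = i ∨ j = i + 1) := Iff.rfl

theorem adj_rl {i j : Fin 5} {a b : Fin 3} : ex.Adj (Sum.inr i) (Sum.inl (j, a, b)) ↔
    (j = i ∨ j = i + 1) := Iff.rfl

theorem adj_rr {i j : Fin 5} : ¬ ex.Adj (Sum.inr i) (Sum.inr j) := fun h => h

theorem fin5_clique : ∀ P : Finset (Fin 5), (∀ x ∈ P, ∀ y ∈ P, x = y ∨ cadj x y) →
    ∃ i, ∀ x ∈ P, x = i ∨ x = i + 1 := by
  decide +kernel

theorem maxClique_add {Q : Finset W} (hQ : IsMaximalClique ex Q) (v : W)
    (h : ∀ q ∈ Q, v ≠ q → ex.Adj v q) : v ∈ Q := by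
  classical
  have h1 : ex.IsClique ((insert v Q : Finset W) : Set W) := by
    intro x hx y hy hxy
    rw [mem_coe, mem_insert] at hx hy
    rcases hx with rfl | hx <;> rcases hy with rfl | hy
    · exact absurd rfl hxy
    · exact h y hy hxy
    · exact (h x hx (Ne.symm hxy)).symm
    · exact hQ.1 (mem_coe.2 hx) (mem_coe.2 hy) hxy
  rw [← hQ.2 _ h1 (subset_insert _ _)]
  exact mem_insert_self _ _

theorem maxStable_nbr {S : Finset W} (hS : IsMaximalStable ex S) (v : W) (hv : v ∉ S) :
    ∃ s ∈ S, ex.Adj v s := by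
  classical
  by_contra hcon
  push Not at hcon
  have h1 : ex.IsIndepSet ((insert v S : Finset W) : Set W) := by
    intro x hx y hy hxy hadj
    rw [mem_coe, mem_insert] at hx hy
    rcases hx with rfl | hx <;> rcases hy with rfl | hy
    · exact absurd rfl hxy
    · exact hcon y hy hadj
    · exact hcon x hx hadj.symm
    · exact hS.1 (mem_coe.2 hx) (mem_coe.2 hy) hxy hadj
  apply hv
  rw [← hS.2 _ h1 (subset_insert _ _)]
  exact mem_insert_self _ _

theorem cis : IsCIS ex := by
  classical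
  intro Q S hQ hS
  by_contra hcon
  push Not at hcon
  -- the blocks met by `Q`
  obtain ⟨i0, hi0⟩ := fin5_clique (univ.filter fun i => ∃ a b, Sum.inl (i, a, b) ∈ Q) (by
    intro x hx y hy
    rw [mem_filter] at hx hy
    obtain ⟨-, a, b, hx⟩ := hx
    obtain ⟨-, c, d, hy⟩ := hy
    by_cases hxy : x = y
    · exact Or.inl hxy
    · right
      have := hQ.1 (mem_coe.2 hx) (mem_coe.2 hy) (by
        intro h
        rw [Sum.inl.injEq, Prod.mk.injEq] at h
        exact hxy h.1)
      rcases adj_ll.1 this with h | h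
      · exact h
      · exact absurd h.1 hxy)
  have ht : ∃ i, Sum.inr i ∈ Q := by
    by_contra hno
    push Not at hno
    apply hno i0
    apply maxClique_add hQ
    rintro (⟨j, a, b⟩ | j) hq -
    · exact adj_rl.2 (hi0 j (mem_filter.2 ⟨mem_univ _, a, b, hq⟩))
    · exact absurd hq (hno j)
  obtain ⟨i, hi⟩ := ht
  have hblock : ∀ j a b, Sum.inl (j, a, b) ∈ Q → j = i ∨ j = i + 1 := by
    intro j a b hq
    exact adj_rl.1 (hQ.1 (mem_coe.2 hi) (mem_coe.2 hq) (by simp))
  have honly : ∀ k, Sum.inr k ∈ Q → k = i := by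
    intro k hk
    by_contra hki
    exact adj_rr (hQ.1 (mem_coe.2 hk) (mem_coe.2 hi) (by
      intro h
      exact hki (Sum.inr.inj h)))
  have hii : cadj i (i + 1) := Or.inl rfl
  have hadjblocks : ∀ j k, (j = i ∨ j = i + 1) → (k = i ∨ k = i + 1) → j ≠ k → cadj j k := by
    rintro j k (rfl | rfl) (rfl | rfl) h
    · exact absurd rfl h
    · exact hii
    · exact cadj_symm hii
    · exact absurd rfl h
  -- each of the two blocks contains a full triangle of `Q`
  have hex : ∀ j, (j = i ∨ j = i + 1) → ∃ a b, Sum.inl (j, a, b) ∈ Q := by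
    intro j hj
    by_contra hno
    push Not at hno
    apply hno 0 0
    apply maxClique_add hQ
    rintro (⟨k, c, d⟩ | k) hq hne
    · have hk := hblock k c d hq
      have hjk : j ≠ k := by
        rintro rfl
        exact hno c d hq
      exact adj_ll.2 (Or.inl (hadjblocks j k hj hk hjk))
    · rw [honly k hq]
      exact adj_lr.2 hj
  have hfull : ∀ j, (j = i ∨ j = i + 1) → ∃ a, ∀ b, Sum.inl (j, a, b) ∈ Q := by
    intro j hj
    obtain ⟨a, b0, hab⟩ := hex j hj
    refine ⟨a, fun b => ?_⟩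
    apply maxClique_add hQ
    rintro (⟨k, c, d⟩ | k) hq hne
    · have hk := hblock k c d hq
      by_cases hjk : j = k
      · subst hjk
        have hac : a = c := by
          by_contra hac
          have := hQ.1 (mem_coe.2 hab) (mem_coe.2 hq) (by
            intro h
            rw [Sum.inl.injEq, Prod.mk.injEq, Prod.mk.injEq] at h
            exact hac h.2.1)
          rcases adj_ll.1 this with h | h
          · exact cadj_irrefl _ h
          · exact hac h.2.1
        subst hac
        refine adj_ll.2 (Or.inr ⟨rfl, rfl, ?_⟩)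
        rintro rfl
        exact hne rfl
      · exact adj_ll.2 (Or.inl (hadjblocks j k hj hk hjk))
    · rw [honly k hq]
      exact adj_lr.2 hj
  -- `t_i` is not in `S`
  obtain ⟨s, hs, hsadj⟩ := maxStable_nbr hS (Sum.inr i) (hcon _ hi)
  rcases s with ⟨j, a0, b0⟩ | k
  · have hj := adj_rl.1 hsadj
    obtain ⟨a, ha⟩ := hfull j hj
    obtain ⟨s', hs', hs'adj⟩ := maxStable_nbr hS (Sum.inl (j, a, 0)) (hcon _ (ha 0))
    rcases s' with ⟨k, c, d⟩ | k
    · rcases adj_ll.1 hs'adj with h | ⟨rfl, rfl, -⟩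
      · have h3 : ex.Adj (Sum.inl (j, a0, b0)) (Sum.inl (k, c, d)) := adj_ll.2 (Or.inl h)
        exact hS.1 (mem_coe.2 hs) (mem_coe.2 hs') h3.ne h3
      · exact hcon _ (ha d) hs'
    · have h3 : ex.Adj (Sum.inl (j, a0, b0)) (Sum.inr k) := adj_lr.2 (adj_lr.1 hs'adj)
      exact hS.1 (mem_coe.2 hs) (mem_coe.2 hs') h3.ne h3
  · exact adj_rr hsadj

theorem count_bound (X : Finset W) (P T : Finset (Fin 5))
    (hP : ∀ i a b, Sum.inl (i, a, b) ∈ X → i ∈ P) (hT : ∀ i, Sum.inr i ∈ X → i ∈ T)
    (h3 : ∀ i, ((univ : Finset (Fin 3 × Fin 3)).filter fun p => Sum.inl (i, p) ∈ X).card ≤ 3) :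
    X.card ≤ 3 * P.card + T.card := by
  classical
  have hsub : X ⊆ (P.biUnion fun i => ((univ : Finset (Fin 3 × Fin 3)).filter
      fun p => Sum.inl (i, p) ∈ X).image fun p => (Sum.inl (i, p) : W)) ∪
      T.image Sum.inr := by
    rintro (⟨i, a, b⟩ | i) hx
    · rw [mem_union]
      left
      rw [mem_biUnion]
      exact ⟨i, hP i a b hx, mem_image.2 ⟨(a, b), mem_filter.2 ⟨mem_univ _, hx⟩, rfl⟩⟩
    · rw [mem_union]
      right
      exact mem_image.2 ⟨i, hT i hx, rfl⟩
  refine le_trans (card_le_card hsub) (le_trans (card_union_le _ _) ?_)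
  refine Nat.add_le_add (le_trans card_biUnion_le ?_) card_image_le
  calc ∑ i ∈ P, (((univ : Finset (Fin 3 × Fin 3)).filter
      fun p => Sum.inl (i, p) ∈ X).image fun p => (Sum.inl (i, p) : W)).card
      ≤ ∑ _i ∈ P, 3 := sum_le_sum fun i _ => le_trans card_image_le (h3 i)
    _ = 3 * P.card := by rw [sum_const, smul_eq_mul, mul_comm]

theorem fin5_stable : ∀ P T : Finset (Fin 5), (∀ x ∈ P, ∀ y ∈ P, ¬ cadj x y) →
    (∀ x ∈ P, ∀ i ∈ T, ¬ (x = i ∨ x = i + 1)) → 3 * P.card + T.card ≤ 7 := by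
  decide +kernel

theorem fin5_clique2 : ∀ P : Finset (Fin 5), (∀ x ∈ P, ∀ y ∈ P, x = y ∨ cadj x y) →
    P.card ≤ 2 := by
  decide +kernel

theorem stable_bound (S : Finset W) (hS : ex.IsIndepSet (S : Set W)) : S.card ≤ 7 := by
  classical
  have h := count_bound S (univ.filter fun i => ∃ a b, Sum.inl (i, a, b) ∈ S)
    (univ.filter fun i => Sum.inr i ∈ S) (fun i a b h => mem_filter.2 ⟨mem_univ _, a, b, h⟩)
    (fun i h => mem_filter.2 ⟨mem_univ _, h⟩) (by
      intro i
      have hinj : Set.InjOn (fun p : Fin 3 × Fin 3 => p.1)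
          (((univ : Finset (Fin 3 × Fin 3)).filter fun p => Sum.inl (i, p) ∈ S : Finset _) :
            Set (Fin 3 × Fin 3)) := by
        rintro ⟨a, b⟩ hp ⟨c, d⟩ hq hpq
        have hp' := (mem_filter.1 (mem_coe.1 hp)).2
        have hq' := (mem_filter.1 (mem_coe.1 hq)).2
        simp only at hpq
        subst hpq
        by_contra hne
        have hadj : ex.Adj (Sum.inl (i, a, b)) (Sum.inl (i, a, d)) :=
          adj_ll.2 (Or.inr ⟨rfl, rfl, fun h => hne (by rw [h])⟩)
        exact hS (mem_coe.2 hp') (mem_coe.2 hq') hadj.ne hadj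
      rw [← card_image_of_injOn hinj]
      exact le_trans (card_le_univ _) (by simp))
  refine le_trans h (fin5_stable _ _ ?_ ?_)
  · intro x hx y hy hxy
    obtain ⟨-, a, b, hx⟩ := mem_filter.1 hx
    obtain ⟨-, c, d, hy⟩ := mem_filter.1 hy
    have hadj : ex.Adj (Sum.inl (x, a, b)) (Sum.inl (y, c, d)) := adj_ll.2 (Or.inl hxy)
    exact hS (mem_coe.2 hx) (mem_coe.2 hy) hadj.ne hadj
  · intro x hx i hi hxi
    obtain ⟨-, a, b, hx⟩ := mem_filter.1 hx
    have hi := (mem_filter.1 hi).2
    have hadj : ex.Adj (Sum.inl (x, a, b)) (Sum.inr i) := adj_lr.2 hxi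
    exact hS (mem_coe.2 hx) (mem_coe.2 hi) hadj.ne hadj

theorem clique_bound (Q : Finset W) (hQ : ex.IsClique (Q : Set W)) : Q.card ≤ 7 := by
  classical
  have h := count_bound Q (univ.filter fun i => ∃ a b, Sum.inl (i, a, b) ∈ Q)
    (univ.filter fun i => Sum.inr i ∈ Q) (fun i a b h => mem_filter.2 ⟨mem_univ _, a, b, h⟩)
    (fun i h => mem_filter.2 ⟨mem_univ _, h⟩) (by
      intro i
      have hinj : Set.InjOn (fun p : Fin 3 × Fin 3 => p.2)
          (((univ : Finset (Fin 3 × Fin 3)).filter fun p => Sum.inl (i, p) ∈ Q : Finset _) :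
            Set (Fin 3 × Fin 3)) := by
        rintro ⟨a, b⟩ hp ⟨c, d⟩ hq hpq
        have hp' := (mem_filter.1 (mem_coe.1 hp)).2
        have hq' := (mem_filter.1 (mem_coe.1 hq)).2
        simp only at hpq
        subst hpq
        by_contra hne
        have hac : a ≠ c := fun h => hne (by rw [h])
        have hadj := hQ (mem_coe.2 hp') (mem_coe.2 hq') (by
          intro h
          rw [Sum.inl.injEq, Prod.mk.injEq, Prod.mk.injEq] at h
          exact hac h.2.1)
        rcases adj_ll.1 hadj with h | h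
        · exact cadj_irrefl _ h
        · exact hac h.2.1
      rw [← card_image_of_injOn hinj]
      exact le_trans (card_le_univ _) (by simp))
  have h1 := fin5_clique2 (univ.filter fun i => ∃ a b, Sum.inl (i, a, b) ∈ Q) (by
    intro x hx y hy
    rw [mem_filter] at hx hy
    obtain ⟨-, a, b, hx⟩ := hx
    obtain ⟨-, c, d, hy⟩ := hy
    by_cases hxy : x = y
    · exact Or.inl hxy
    · right
      have := hQ (mem_coe.2 hx) (mem_coe.2 hy) (by
        intro h
        rw [Sum.inl.injEq, Prod.mk.injEq] at h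
        exact hxy h.1)
      rcases adj_ll.1 this with h | h
      · exact h
      · exact absurd h.1 hxy)
  have h2 : (univ.filter fun i => (Sum.inr i : W) ∈ Q).card ≤ 1 := by
    rw [card_le_one]
    intro a ha b hb
    have ha := (mem_filter.1 ha).2
    have hb := (mem_filter.1 hb).2
    by_contra hab
    exact adj_rr (hQ (mem_coe.2 ha) (mem_coe.2 hb) (fun h => hab (Sum.inr.inj h)))
  omega

/-- There is a finite CIS graph with `α ω < |V|`. -/
theorem result : ∃ (V : Type) (_ : Fintype V) (G : SimpleGraph V),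
    IsCIS G ∧ G.indepNum * G.cliqueNum < Fintype.card V := by
  refine ⟨W, inferInstance, ex, cis, ?_⟩
  obtain ⟨S, hS⟩ := ex.exists_isNIndepSet_indepNum
  obtain ⟨Q, hQ⟩ := ex.exists_isNClique_cliqueNum
  have h1 := stable_bound S hS.isIndepSet
  have h2 := clique_bound Q hQ.isClique
  rw [hS.card_eq] at h1
  rw [hQ.card_eq] at h2
  have h3 : Fintype.card W = 50 := by simp [W]
  rw [h3]
  calc ex.indepNum * ex.cliqueNum ≤ 7 * 7 := Nat.mul_le_mul h1 h2
    _ < 50 := by norm_num

end Pool.Agent.Results.MP_703660_co.CISProductBound
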